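import Mathlib
import Pool.Agent.H532.RM.Bft
import Pool.Agent.H565.AC.Fin6

/-!
# The exponent of Cramér's conjecture under adaptive corruption of the random sieve

In the random model of Banks, Ford and Tao (Large prime gaps and probabilistic models, Invent.
Math. 2023) one removes from the integers a random class `a_p` modulo `p` for every prime `p` up to
the limit `z(n)` with `∏_{p ≤ z(n)} (1 - 1/p) ≈ 1 / log n`. They prove that the largest gap up to
`X` is `(log X)^(2 + o(1))`, almost surely.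

We ask how stable this is. An adversary sees all random classes and may, near every `x` and
differently for every interval, replace the classes modulo the primes of a finite set `D` by
classes of his choice. For instance he may restore the class `0` of the sieve of Eratosthenes for
all primes up to some bound, or spend his changes on a few larger primes.

(1) Almost surely, for all large `x` and all `H ≤ x`, at least `c H / log x` integers survive in
`(x, x + H]` if `D = D₀ ∪ D₁`, where the primes of `D₀` are arbitrary and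
`(|D₀| + log x) ^ (2 + ε) ≤ H`, and `D₁` consists of at most `c H / log x` primes larger than
`(|D₁| + log x) ^ (1 + δ)`.

(2) Conversely `C H / log x` changes modulo primes larger than `x ^ (1/8)` suffice to empty an
interval of length `H ≤ x ^ (1/8)` near `x`, for all choices of the classes. So (for
`(log x) ^ (2 + ε) ≤ H ≤ x ^ (1/9)`, say) the number of changes which an adversary confined to
primes larger than `(|D| + log x) ^ (1 + δ)`, `δ` small, needs for this is of the exact order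
`H / log x`.

(3) Consequently the exponent two is stable under `k(x)` changes near `x` if and only if
`k(x) ≤ (log x) ^ (1 + o(1))`.
-/

open Finset MeasureTheory ProbabilityTheory Filter
open scoped ENNReal Topology

namespace Pool.Agent.Results.MP_3bc45c_nt.AdaptiveCorruption

/-- `A p`, `p` prime, are independent random variables and `A p` is uniformly distributed on
`{0, …, p - 1}`. -/
structure RandomClasses {Ω : Type} [MeasurableSpace Ω] (μ : Measure Ω) (A : ℕ → Ω → ℕ) :
    Prop where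
  meas : ∀ p, Measurable (A p)
  indep : iIndepFun (fun p : Nat.Primes => A p) μ
  unif : ∀ p : ℕ, p.Prime → ∀ r < p, μ {ω | A p ω = r} = (p : ℝ≥0∞)⁻¹

/-- `V z = ∏_{p ≤ z} (1 - 1 / p)`. -/
noncomputable def V (z : ℕ) : ℝ := ∏ p ∈ (range (z + 1)).filter Nat.Prime, (1 - 1 / (p : ℝ))

/-- The integers `n` are sieved by the primes up to `z n`; this leaves the density `1 / log n`. -/
structure SievingLimit (z : ℕ → ℕ) : Prop where
  mono : Monotone z
  lim : Tendsto (fun n : ℕ => V (z n) * Real.log n) atTop (𝓝 1)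

/-- The sieving limit of Banks, Ford and Tao: the largest `z` with `V z ≥ 1 / log n`. -/
noncomputable def banksFordTao (n : ℕ) : ℕ := sSup {z : ℕ | 1 / Real.log n ≤ V z}

/-- The sieve with changed classes: the class removed modulo the prime `p ≤ z n` is that of `b p` if
`p ∈ D`, and that of `a p` if `p ∉ D`. -/
def sieved (z : ℕ → ℕ) (D : Finset ℕ) (b a : ℕ → ℕ) : Set ℕ :=
  {n | ∀ p : ℕ, p.Prime → p ≤ z n → ¬ n ≡ (if p ∈ D then b p else a p) [MOD p]}

/-- The number of the elements of `sieved z D b a` in `(x, x + H]`. -/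
noncomputable def survivors (z : ℕ → ℕ) (D : Finset ℕ) (b a : ℕ → ℕ) (x H : ℕ) : ℕ :=
  {n | n ∈ sieved z D b a ∧ x < n ∧ n ≤ x + H}.ncard

/-- Exponent two: whatever `k x` classes are changed near `x`, for every `η > 0` and all large `x`
no interval `(x, x + H]` with `(log x) ^ (2 + η) ≤ H ≤ x` is empty. -/
def ExponentTwo (z k a : ℕ → ℕ) : Prop :=
  ∀ η : ℝ, 0 < η → ∀ᶠ x : ℕ in atTop, ∀ (D : Finset ℕ) (b : ℕ → ℕ), D.card ≤ k x →
    ∀ H : ℕ, H ≤ x → Real.log x ^ (2 + η) ≤ H →
      ∃ n, x < n ∧ n ≤ x + H ∧ n ∈ sieved z D b a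

/-- **The exponent of the largest gap under adaptive corruption.** -/
theorem result :
    -- the model exists
    (∃ μ : Measure (ℕ → ℕ), IsProbabilityMeasure μ ∧ RandomClasses μ (fun p ω => ω p)) ∧
    SievingLimit banksFordTao ∧
    -- (1) few arbitrary changes and many changes at large primes leave `c H / log x` survivors
    (∀ ε δ : ℝ, 0 < ε → 0 < δ → ∃ c : ℝ, 0 < c ∧ ∀ (Ω : Type) [MeasurableSpace Ω] (μ : Measure Ω)
      [IsProbabilityMeasure μ] (A : ℕ → Ω → ℕ), RandomClasses μ A → ∀ z : ℕ → ℕ,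
      SievingLimit z → ∀ᵐ ω ∂μ, ∀ᶠ x : ℕ in atTop, ∀ H : ℕ, H ≤ x →
      ∀ (D₀ D₁ : Finset ℕ) (b : ℕ → ℕ),
        ((D₀.card : ℝ) + Real.log x) ^ (2 + ε) ≤ H →
        (∀ p ∈ D₁, p.Prime → ((D₁.card : ℝ) + Real.log x) ^ (1 + δ) < p) →
        (D₁.card : ℝ) ≤ c * H / Real.log x →
        c * H / Real.log x ≤ (survivors z (D₀ ∪ D₁) b (fun p => A p ω) x H : ℝ)) ∧
    -- (2) `C H / log x` changes at primes larger than `x ^ (1/8)` suffice, for all choices
    (∃ C : ℝ, 0 < C ∧ ∀ z : ℕ → ℕ, SievingLimit z → ∀ᶠ x : ℕ in atTop,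
      ∀ (a : ℕ → ℕ) (H : ℕ), 1 ≤ H → (H : ℝ) ^ 8 ≤ x →
      ∃ y : ℕ, x ≤ y ∧ y + H ≤ 2 * x ∧ ∃ (D : Finset ℕ) (b : ℕ → ℕ),
        (∀ p ∈ D, p.Prime ∧ x < p ^ 8) ∧
        (D.card : ℝ) ≤ C * H / Real.log x ∧ survivors z D b a y H = 0) ∧
    -- (3) the exact number of changes under which the exponent two is stable
    (∀ (Ω : Type) [MeasurableSpace Ω] (μ : Measure Ω) [IsProbabilityMeasure μ]
      (A : ℕ → Ω → ℕ), RandomClasses μ A → ∀ z : ℕ → ℕ, SievingLimit z →
      ∀ k : ℕ → ℕ, Monotone k →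
      ((∀ᵐ ω ∂μ, ExponentTwo z k (fun p => A p ω)) ↔
        ∀ η : ℝ, 0 < η → ∀ᶠ x : ℕ in atTop, (k x : ℝ) ≤ Real.log x ^ (1 + η))) := by
  have hR : ∀ {Ω : Type} [MeasurableSpace Ω] {μ : Measure Ω} {A : ℕ → Ω → ℕ},
      RandomClasses μ A → Pool.Agent.H532.RM.RandomClasses μ A := fun h =>
    ⟨h.meas, h.indep, h.unif⟩
  refine ⟨?_, ⟨Pool.Agent.H532.RM.zBFT_mono, Pool.Agent.H532.RM.zBFT_lim⟩, ?_, ?_, ?_⟩
  · obtain ⟨μ, h1, h2⟩ := Pool.Agent.H532.RM.exists_randomClasses
    exact ⟨μ, h1, ⟨h2.meas, h2.indep, h2.unif⟩⟩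
  · intro ε δ hε hδ
    obtain ⟨c, hc, h⟩ := Pool.Agent.H565.AC.fin6 ε δ hε hδ
    exact ⟨c, hc, fun Ω _ μ _ A hA z hz => h μ A (hR hA) z hz.mono hz.lim⟩
  · obtain ⟨C, hC, h⟩ := Pool.Agent.H565.AC.fin2
    refine ⟨C, hC, fun z hz => ?_⟩
    filter_upwards [h z hz.mono hz.lim] with x hx a H h1 h2
    obtain ⟨y, y1, y2, D, b, d1, d2, h3⟩ := hx a H h1 h2
    refine ⟨y, y1, y2, D, b, d1, d2, ?_⟩
    have : {n | n ∈ sieved z D b a ∧ y < n ∧ n ≤ y + H} = ∅ := by
      ext n
      simp only [Set.mem_ofPred_eq, Set.mem_empty_iff_false, iff_false]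
      rintro ⟨g1, g2, g3⟩
      exact h3 n g2 g3 g1
    unfold survivors
    rw [this, Set.ncard_empty]
  · intro Ω _ μ _ A hA z hz k hk
    exact Pool.Agent.H565.AC.fin3 μ A (hR hA) z hz.mono hz.lim k hk

end Pool.Agent.Results.MP_3bc45c_nt.AdaptiveCorruption
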