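import Mathlib
import Pool.Agent.H524.EvenE

/-!
The lower half of Cramér's conjecture for the polynomial ring over a finite field with an even
number of elements: in every degree there are intervals without irreducible polynomials of length
at least a constant times the square of the logarithm of the absolute value.
-/

open Polynomial

/-- Let `K` be a finite field with an even number `q` of elements. There is `c > 0` such that for
every `n ≥ 2` there are a monic polynomial `A` of degree `n`, that is with absolute value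
`q ^ n`, and a natural number `h` such that `c * (log (q ^ n)) ^ 2 ≤ q ^ h` and none of the
`q ^ h` polynomials `B` with `deg (B - A) < h` is irreducible. -/
theorem Pool.Agent.Results.MP_3bc45c_nt.FunctionFieldOrder.result
    (K : Type*) [Field K] [Fintype K] (hK : Even (Fintype.card K)) :
    ∃ c : ℝ, 0 < c ∧ ∀ n : ℕ, 2 ≤ n → ∃ (A : K[X]) (h : ℕ), A.Monic ∧ A.natDegree = n ∧
      c * (Real.log ((Fintype.card K : ℝ) ^ n)) ^ 2 ≤ (Fintype.card K : ℝ) ^ h ∧
      ∀ B : K[X], (B - A).degree < (h : WithBot ℕ) → ¬ Irreducible B := by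
  have hchar : ringChar K = 2 :=
    FiniteField.even_card_iff_char_two.mpr (Nat.even_iff.mp hK)
  have : CharP K 2 := ringChar.eq_iff.mp hchar
  have hq2 : 2 ≤ Fintype.card K := Fintype.one_lt_card
  have hq : (2 : ℝ) ≤ (Fintype.card K : ℝ) := by exact_mod_cast hq2
  have hlog : 0 < Real.log (Fintype.card K : ℝ) := Real.log_pos (by linarith)
  refine ⟨(121 * (Fintype.card K : ℝ) ^ 6 * (Real.log (Fintype.card K : ℝ)) ^ 2)⁻¹,
    by positivity, ?_⟩
  intro n hn
  obtain ⟨A, h, hA1, hA2, hA3, hA4⟩ := Pool.Agent.H524.primefree_even_all (K := K) n hn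
  refine ⟨A, h, hA1, hA2, ?_, hA4⟩
  have h1 : (n : ℝ) ^ 2 ≤ 121 * (Fintype.card K : ℝ) ^ (h + 6) := by exact_mod_cast hA3
  rw [Real.log_pow, mul_pow]
  have h2 : (Fintype.card K : ℝ) ^ (h + 6) =
      (Fintype.card K : ℝ) ^ h * (Fintype.card K : ℝ) ^ 6 := pow_add _ _ _
  rw [h2] at h1
  rw [inv_mul_le_iff₀ (by positivity)]
  calc (n : ℝ) ^ 2 * Real.log (Fintype.card K : ℝ) ^ 2
      ≤ (121 * ((Fintype.card K : ℝ) ^ h * (Fintype.card K : ℝ) ^ 6)) *
        Real.log (Fintype.card K : ℝ) ^ 2 := by
        apply mul_le_mul_of_nonneg_right h1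
        positivity
    _ = _ := by ring
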