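import Mathlib
import Pool.Agent.H532.LG.Final
import Pool.Agent.H532.LG.Facts2

/-!
# The number of large gaps in the random sieve model

In the model of Banks, Ford and Tao (Large prime gaps and probabilistic models, Invent. Math. 2023)
the primes are replaced by the random set `R` of the integers `n` which are outside the random
residue class `a_p` modulo `p` for all primes `p ≤ z(n)`, `∏_{p ≤ z(n)} (1 - 1/p) ≈ 1 / log n`.
They determined the order of the largest gap of `R`. The theorem counts the gaps of `R` which are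
larger than `H`, almost surely and uniformly for `log X (loglog X)³ ≤ H ≤ C (log X)²`: between `X`
and `2 X` there are

  `X exp (- (m + o(1)) H / log X)`

of them, where `m = m(H, X)` is the normalised minimum of the interval sieve: the smallest number
of the integers without prime factors up to `H / log X` in an interval of length `H`, divided by
its expected value. This holds down to the last gap. For `H = (log X) ^ (1 + o(1))` one has
`m = 1 + o(1)` and the gaps have the Poisson tail of the independent model of Cramér; as soon as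
`H ≥ (log X) ^ (1 + ε)` one has `m ≤ 1 - c(ε)`, and the Poisson tail is wrong by a factor
`exp (c H / log X)`.

The proof of the lower bound uses a truncated second moment over the windows with the classes for
the primes up to about `H / log X` fixed, in several stages for the larger primes; the proof of the
upper bound a large deviation estimate for the number of the surviving elements of a window.
-/

open Finset MeasureTheory ProbabilityTheory Filter
open scoped ENNReal Topology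

namespace Pool.Agent.Results.MP_3bc45c_nt.LargeGapCounts

/-- `A p`, `p` prime, are independent random variables and `A p` is uniformly distributed on
`{0, …, p - 1}`. -/
structure RandomClasses {Ω : Type} [MeasurableSpace Ω] (μ : Measure Ω) (A : ℕ → Ω → ℕ) :
    Prop where
  meas : ∀ p, Measurable (A p)
  indep : iIndepFun (fun p : Nat.Primes => A p) μ
  unif : ∀ p : ℕ, p.Prime → ∀ r < p, μ {ω | A p ω = r} = (p : ℝ≥0∞)⁻¹

/-- `V z = ∏_{p ≤ z} (1 - 1 / p)`. -/
noncomputable def V (z : ℕ) : ℝ := ∏ p ∈ (range (z + 1)).filter Nat.Prime, (1 - 1 / (p : ℝ))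

/-- The integers `n` are sieved by the primes up to `z n`; this leaves the density `1 / log n`. -/
structure SievingLimit (z : ℕ → ℕ) : Prop where
  mono : Monotone z
  lim : Tendsto (fun n : ℕ => V (z n) * Real.log n) atTop (𝓝 1)

/-- The sieving limit of Banks, Ford and Tao: the largest `z` with `V z ≥ 1 / log n`. -/
noncomputable def banksFordTao (n : ℕ) : ℕ := sSup {z : ℕ | 1 / Real.log n ≤ V z}

/-- The random sieve: the integers `n` which are not congruent to `a p` modulo `p`, for all primes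
`p ≤ z n`. -/
def sieved (z : ℕ → ℕ) (a : ℕ → ℕ) : Set ℕ :=
  {n | ∀ p : ℕ, p.Prime → p ≤ z n → ¬ n ≡ a p [MOD p]}

/-- The number of the elements `r` of `R`, `X ≤ r ≤ 2 X`, which are followed by a gap larger
than `H`. -/
noncomputable def largeGaps (R : Set ℕ) (X H : ℝ) : ℕ :=
  {r : ℕ | r ∈ R ∧ X ≤ r ∧ (r : ℝ) ≤ 2 * X ∧ ∀ s ∈ R, r < s → (r : ℝ) + H < s}.ncard

/-- The number of the integers `n`, `m < n ≤ m + U`, without prime factors `p ≤ ζ`. -/
def sifted (m U ζ : ℕ) : ℕ :=
  ((Ioc m (m + U)).filter (fun n => ∀ p ≤ ζ, p.Prime → ¬ p ∣ n)).card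

/-- `min_m #{m < n ≤ m + U : n has no prime factor ≤ ζ}`, divided by `U ∏_{p ≤ ζ} (1 - 1 / p)`. -/
noncomputable def minSifted (U ζ : ℕ) : ℝ := ((⨅ m, sifted m U ζ : ℕ) : ℝ) / (U * V ζ)

lemma sifted_eq (m U ζ : ℕ) :
    sifted m U ζ = Pool.Agent.H532.RM.T1 (fun _ => 0) ζ m U := by
  unfold sifted Pool.Agent.H532.RM.T1
  congr 1
  ext n
  rw [Pool.Agent.H532.RM.mem_T1, mem_filter, mem_Ioc]
  constructor
  · rintro ⟨h1, h2⟩
    refine ⟨h1, fun p hp h3 => ?_⟩
    rw [Nat.zero_mod] at h3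
    have hp' := Pool.Agent.H532.RM.mem_primesLe.1 hp
    exact h2 p hp'.1 hp'.2 (Nat.dvd_of_mod_eq_zero h3)
  · rintro ⟨h1, h2⟩
    refine ⟨h1, fun p hp hpp h3 => ?_⟩
    have := h2 p (Pool.Agent.H532.RM.mem_primesLe.2 ⟨hp, hpp⟩)
    rw [Nat.zero_mod] at this
    exact this (Nat.mod_eq_zero_of_dvd h3)

lemma minSifted_eq (U ζ : ℕ) : minSifted U ζ = Pool.Agent.H532.RM.rm U ζ := by
  unfold minSifted Pool.Agent.H532.RM.rm Pool.Agent.H532.RM.smin
  simp only [sifted_eq]
  rfl

/-- **The number of large gaps in the random sieve model.** -/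
theorem result :
    -- the model exists
    (∃ μ : Measure (ℕ → ℕ), IsProbabilityMeasure μ ∧ RandomClasses μ (fun p ω => ω p)) ∧
    SievingLimit banksFordTao ∧
    -- the number of the gaps larger than `H`
    (∀ δ : ℝ, 0 < δ → ∀ (Ω : Type) [MeasurableSpace Ω] (μ : Measure Ω)
      [IsProbabilityMeasure μ] (A : ℕ → Ω → ℕ), RandomClasses μ A → ∀ z : ℕ → ℕ,
      SievingLimit z → ∀ᵐ ω ∂μ, ∀ᶠ X : ℝ in atTop, ∀ H : ℝ,
      Real.log X * Real.log (Real.log X) ^ 3 ≤ H → H ≤ 1 / δ * Real.log X ^ 2 →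
        (largeGaps (sieved z (fun p => A p ω)) X H : ℝ) ≤
          X * Real.exp (-((minSifted ⌊H⌋₊ ⌊H / Real.log X⌋₊ - δ) * (H / Real.log X))) ∧
        ((minSifted ⌊H⌋₊ ⌊H / Real.log X⌋₊ + δ) * H ≤ (1 - δ) * Real.log X ^ 2 →
          X * Real.exp (-((minSifted ⌊H⌋₊ ⌊H / Real.log X⌋₊ + δ) * (H / Real.log X))) ≤
            largeGaps (sieved z (fun p => A p ω)) X H)) ∧
    -- the exponent is that of the Poisson distribution for `H = (log X) ^ (1 + o(1))`
    (∀ δ : ℝ, 0 < δ → ∃ ε : ℝ, 0 < ε ∧ ∀ᶠ X : ℝ in atTop, ∀ H : ℝ,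
      Real.log X * Real.log (Real.log X) ^ 3 ≤ H → H ≤ Real.log X ^ (1 + ε) →
        |minSifted ⌊H⌋₊ ⌊H / Real.log X⌋₊ - 1| ≤ δ) ∧
    -- it is smaller for `H ≥ (log X) ^ (1 + ε)`
    (∀ ε : ℝ, 0 < ε → ∃ c : ℝ, 0 < c ∧ ∀ᶠ X : ℝ in atTop, ∀ H : ℝ,
      Real.log X ^ (1 + ε) ≤ H → H ≤ 1 / ε * Real.log X ^ 2 →
        minSifted ⌊H⌋₊ ⌊H / Real.log X⌋₊ ≤ 1 - c) := by
  have hR : ∀ {Ω : Type} [MeasurableSpace Ω] {μ : Measure Ω} {A : ℕ → Ω → ℕ},
      RandomClasses μ A → Pool.Agent.H532.RM.RandomClasses μ A := fun h =>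
    ⟨h.meas, h.indep, h.unif⟩
  simp only [minSifted_eq]
  refine ⟨?_, ⟨Pool.Agent.H532.RM.zBFT_mono, Pool.Agent.H532.RM.zBFT_lim⟩, ?_,
    Pool.Agent.H532.LG.rm_near_one, Pool.Agent.H532.LG.rm_lt_one⟩
  · obtain ⟨μ, h1, h2⟩ := Pool.Agent.H532.RM.exists_randomClasses
    exact ⟨μ, h1, ⟨h2.meas, h2.indep, h2.unif⟩⟩
  · intro δ hδ Ω _ μ _ A hA z hz
    obtain ⟨δ', hδ'⟩ : ∃ δ' : ℝ, δ' = min δ 1 := ⟨_, rfl⟩
    have hδ0 : 0 < δ' := by rw [hδ']; exact lt_min hδ one_pos
    have hδ1 : δ' ≤ 1 := by rw [hδ']; exact min_le_right _ _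
    have hδδ : δ' ≤ δ := by rw [hδ']; exact min_le_left _ _
    filter_upwards [Pool.Agent.H532.LG.count_main δ' hδ0 hδ1 μ A (hR hA) z hz.mono hz.lim] with
      ω hω
    filter_upwards [hω, Real.tendsto_log_atTop.eventually_ge_atTop 1,
      (Real.tendsto_log_atTop.comp Real.tendsto_log_atTop).eventually_ge_atTop 0,
      eventually_gt_atTop 0] with X hX hlX hllX hX0 H hH1 hH2
    have hL0 : 0 < Real.log X := by linarith
    have hH0 : 0 ≤ H := by
      refine le_trans ?_ hH1
      have : 0 ≤ Real.log (Real.log X) := hllX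
      positivity
    have hh0 : 0 ≤ H / Real.log X := div_nonneg hH0 hL0.le
    obtain ⟨h1, h2⟩ := hX H hH1 (hH2.trans (by gcongr))
    refine ⟨?_, fun hc => ?_⟩
    · refine le_trans h1 ?_
      have h3 : (Pool.Agent.H532.RM.rm ⌊H⌋₊ ⌊H / Real.log X⌋₊ - δ) * (H / Real.log X) ≤
          (Pool.Agent.H532.RM.rm ⌊H⌋₊ ⌊H / Real.log X⌋₊ - δ') * (H / Real.log X) := by
        gcongr
      exact mul_le_mul_of_nonneg_left (Real.exp_le_exp.2 (neg_le_neg h3)) hX0.le
    · refine le_trans ?_ (h2 ?_)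
      · have h3 : (Pool.Agent.H532.RM.rm ⌊H⌋₊ ⌊H / Real.log X⌋₊ + δ') * (H / Real.log X) ≤
            (Pool.Agent.H532.RM.rm ⌊H⌋₊ ⌊H / Real.log X⌋₊ + δ) * (H / Real.log X) := by
          gcongr
        exact mul_le_mul_of_nonneg_left (Real.exp_le_exp.2 (neg_le_neg h3)) hX0.le
      · have h4 : δ' * H ≤ δ * H := by gcongr
        have h5 : δ' * Real.log X ^ 2 ≤ δ * Real.log X ^ 2 := by gcongr
        nlinarith

end Pool.Agent.Results.MP_3bc45c_nt.LargeGapCounts
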