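import Pool.Agent.H595.AS.Fin
import Pool.Agent.H595.SH.Nat2
import Pool.Agent.H595.SH.Cnt3

/-!
# The size and the position of the largest gap at almost all scales, in the random models of the primes

`Q` is the level: the random set contains each `n` coprime to `Q` independently with
probability `min(1, (Q/φ(Q))/log n)`, and no other `n`. For `Q = 1` this is the model of Cramér.

`G S X` is the largest gap between consecutive elements of `S` up to `X`, as in the problem.
`T(x, u) = log x (log x - log log x - log 2 - Q/(2 φ(Q)) + u)`, and `NG S y z t` is the number of the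
gaps of `S` which begin in `(y, z]` and are longer than `t`.
Almost surely, over the scales `x` measured by logarithmic density, the numbers of the gaps longer
than `T(x, u_i)` which begin in `(θ_i x, θ_(i+1) x]` have the law of independent Poisson variables
with means `(θ_(i+1) ^ 2 - θ_i ^ 2) exp (-u_i)`: ONE random set shows, along its scales, the Poisson
law of the extreme gaps. In particular the size of the largest gap has the Gumbel distribution, its
relative position has the distribution function `θ ^ 2`, and the two are independent. For natural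
density this fails completely: there the densities do not exist.
-/

set_option autoImplicit false

namespace Pool.Agent.Results.MP_3bc45c_nt.LargestGapAtTypicalScales

open Finset MeasureTheory Filter Pool.Agent.Q120.GM Pool.Agent.Q120.AD Pool.Agent.H595.AS Pool.Agent.H595.SH
open scoped Topology Nat

/-- The set `E` has the logarithmic density `d`: `(∑_{n ≤ N, n ∈ E} 1 / n) / log N` tends to `d`. -/
def HasLogDensity (E : Set ℕ) (d : ℝ) : Prop :=
  Tendsto (fun N : ℕ => (∑ n ∈ Icc 1 N, E.indicator (fun n => 1 / (n : ℝ)) n) / Real.log N) atTop (𝓝 d)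

theorem hasLogDensity_iff (P : ℕ → Prop) (d : ℝ) :
    HasLogDensity {x | P x} d ↔ Tendsto (lm fun n => ind (P n)) atTop (𝓝 d) := by
  unfold HasLogDensity
  refine tendsto_congr fun N => ?_
  unfold lm
  congr 1
  refine Finset.sum_congr rfl fun n _ => ?_
  show _ = ind (P n) / (n : ℝ)
  by_cases h : P n
  · rw [Set.indicator_of_mem (show n ∈ {x | P x} from h), ind_true h]
  · rw [Set.indicator_of_notMem (show n ∉ {x | P x} from h), ind_false h, zero_div]

theorem thr (Q : ℕ) (u : ℝ) : ∀ᶠ x : ℕ in atTop, 0 ≤ Real.log x *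
      (Real.log x - Real.log (Real.log x) - Real.log 2 - (Q : ℝ) / (2 * Nat.totient Q) + u) ∧ ⌊Real.log x *
      (Real.log x - Real.log (Real.log x) - Real.log 2 - (Q : ℝ) / (2 * Nat.totient Q) + u)⌋₊ = TT Q u x := by
  have hll : ∀ᶠ x : ℕ in atTop, 2 * Real.log (Real.log x) ^ 2 ≤ 1 * Real.log x := hl.eventually (ev_loglog_sq 2 one_pos)
  have hl1 : ∀ᶠ x : ℕ in atTop, 1 ≤ Real.log (Real.log x) := (Real.tendsto_log_atTop.comp hl).eventually_ge_atTop 1
  filter_upwards [hll, hl1, hl.eventually_ge_atTop (2 * (|cen Q u| + 1))] with x g1 g2 g3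
  have e0 : Real.log x * (Real.log x - Real.log (Real.log x) - Real.log 2 - (Q : ℝ) / (2 * Nat.totient Q) + u) =
      Real.log x * (Real.log x - Real.log (Real.log x) + cen Q u) := by
    unfold cen qq
    ring
  have e1 := neg_abs_le (cen Q u)
  have e2 : 0 ≤ |cen Q u| := abs_nonneg _
  have e3 : 2 * Real.log (Real.log x) ≤ Real.log x := by nlinarith
  have e4 : 1 ≤ Real.log (x : ℝ) := by linarith
  have e5 : 1 ≤ Real.log (x : ℝ) - Real.log (Real.log x) + cen Q u := by linarith
  have e6 : 0 ≤ Real.log x * (Real.log x - Real.log (Real.log x) + cen Q u) := mul_nonneg (by linarith) (by linarith)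
  rw [e0]
  exact ⟨e6, rfl⟩

theorem thr_eq (Q : ℕ) (u : ℝ) : ∀ᶠ x : ℕ in atTop, ∀ g : ℕ, (g : ℝ) ≤ Real.log x *
      (Real.log x - Real.log (Real.log x) - Real.log 2 - (Q : ℝ) / (2 * Nat.totient Q) + u) ↔ g ≤ TT Q u x := by
  filter_upwards [thr Q u] with x hx g
  rw [← hx.2, Nat.le_floor_iff hx.1]

theorem logDensity_congr {p p' : ℕ → Prop} {d : ℝ} (h : ∀ᶠ n in atTop, (p n ↔ p' n))
    (h1 : Tendsto (lm fun n => ind (p n)) atTop (𝓝 d)) : HasLogDensity {x | p' x} d := by
  rw [hasLogDensity_iff]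
  refine lm_squeeze fun ε hε => ⟨_, _, _, _, ?_, ?_, h1, h1, by linarith, by linarith⟩
  · filter_upwards [h] with n hn using ind_mono hn.1
  · filter_upwards [h] with n hn using ind_mono hn.2

open Classical in
/-- The set `E` has lower natural density `0` and upper natural density `1`. -/
def Oscillates (E : Set ℕ) : Prop := ∀ ε : ℝ, 0 < ε →
  (∃ᶠ N : ℕ in atTop, (((range N).filter fun x => x ∈ E).card : ℝ) ≤ ε * N) ∧
  (∃ᶠ N : ℕ in atTop, (1 - ε) * N ≤ (((range N).filter fun x => x ∈ E).card : ℝ))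

theorem oscillates {E : Set ℕ} (h1 : LowerZero E) (h2 : UpperOne E) : Oscillates E := fun ε hε => ⟨h1 ε hε, h2 ε hε⟩

theorem oscillates_congr {E E' : Set ℕ} (h : ∀ᶠ n : ℕ in atTop, (n ∈ E ↔ n ∈ E')) (hE : Oscillates E) : Oscillates E' := by
  classical
  obtain ⟨n0, h0⟩ := eventually_atTop.1 h
  have hd : ∀ N : ℕ, |(((range N).filter fun x => x ∈ E).card : ℝ) - (((range N).filter fun x => x ∈ E').card : ℝ)| ≤ n0 := by
    intro N
    have key : ∀ F F' : Set ℕ, (∀ n, n0 ≤ n → (n ∈ F ↔ n ∈ F')) →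
        (((range N).filter fun x => x ∈ F).card : ℝ) ≤ (((range N).filter fun x => x ∈ F').card : ℝ) + n0 := by
      intro F F' hF
      have e1 : (range N).filter (fun x => x ∈ F) ⊆ (range N).filter (fun x => x ∈ F') ∪ range n0 := by
        intro x hx
        rw [mem_filter] at hx
        rw [mem_union, mem_filter, mem_range (n := n0)]
        rcases lt_or_ge x n0 with h2 | h2
        · exact Or.inr h2
        · exact Or.inl ⟨hx.1, (hF x h2).1 hx.2⟩
      have e2 := (card_le_card e1).trans (card_union_le _ _)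
      rw [card_range] at e2
      exact_mod_cast e2
    have e1 := key E E' h0
    have e2 := key E' E fun n hn => (h0 n hn).symm
    rw [abs_le]
    constructor <;> linarith
  have hconv : ∀ (F : Set ℕ) (N : ℕ), cnt F N = (((range N).filter fun x => x ∈ F).card : ℝ) := by
    intro F N
    unfold cnt
    congr!
  intro ε hε
  obtain ⟨h1, h2⟩ := hE (ε / 2) (by linarith)
  constructor
  · refine (h1.and_eventually (eventually_ge_atTop ⌈2 * (n0 : ℝ) / ε⌉₊)).mono fun N hN => ?_
    have e1 := hd N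
    have e2 : 2 * (n0 : ℝ) / ε ≤ N := Nat.ceil_le.1 hN.2
    rw [div_le_iff₀ hε] at e2
    have e3 := hN.1
    rw [← hconv] at e3 e1
    rw [← hconv] at e1
    rw [← hconv]
    rw [abs_le] at e1
    linarith [e1.1, e1.2]
  · refine (h2.and_eventually (eventually_ge_atTop ⌈2 * (n0 : ℝ) / ε⌉₊)).mono fun N hN => ?_
    have e1 := hd N
    have e2 : 2 * (n0 : ℝ) / ε ≤ N := Nat.ceil_le.1 hN.2
    rw [div_le_iff₀ hε] at e2
    have e3 := hN.1
    rw [← hconv] at e3 e1
    rw [← hconv] at e1
    rw [← hconv]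
    rw [abs_le] at e1
    linarith [e1.1, e1.2]

theorem result : (∀ Q : ℕ, IsModel (prodMeasure (level Q)) (level Q) (trueSet (ι := ℕ))) ∧
    ∀ (Ω : Type) (_ : MeasurableSpace Ω) (μ : Measure Ω) (_ : IsProbabilityMeasure μ) (A : Ω → Set ℕ) (Q : ℕ),
      1 ≤ Q → IsModel μ (level Q) A → ∀ᵐ ω ∂μ,
        -- size and position of the largest gap
        (∀ θ ∈ Set.Icc (0 : ℝ) 1,
          HasLogDensity {x : ℕ | G (A ω) (θ * x) = G (A ω) x} (θ ^ 2) ∧
          ∀ u : ℝ, HasLogDensity {x : ℕ | G (A ω) (θ * x) = G (A ω) x ∧ (G (A ω) x : ℝ) ≤ Real.log x *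
            (Real.log x - Real.log (Real.log x) - Real.log 2 - (Q : ℝ) / (2 * Nat.totient Q) + u)}
            (θ ^ 2 * Real.exp (-Real.exp (-u)))) ∧
        -- the Poisson law of the numbers of long gaps in windows
        (∀ (k : ℕ) (θ u : ℕ → ℝ) (c : ℕ → ℕ), (∀ i, 0 ≤ θ i) → (∀ i, θ i ≤ 1) → Monotone θ →
          HasLogDensity {x : ℕ | ∀ i < k, NG (A ω) (θ i * x) (θ (i + 1) * x) (Real.log x *
            (Real.log x - Real.log (Real.log x) - Real.log 2 - (Q : ℝ) / (2 * Nat.totient Q) + u i)) = c i}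
            (∏ i ∈ range k, Real.exp (-((θ (i + 1) ^ 2 - θ i ^ 2) * Real.exp (-u i))) *
              ((θ (i + 1) ^ 2 - θ i ^ 2) * Real.exp (-u i)) ^ c i / (c i)!)) ∧
        -- there is no natural density
        (∀ u : ℝ, Oscillates {x : ℕ | (G (A ω) x : ℝ) ≤ Real.log x *
            (Real.log x - Real.log (Real.log x) - Real.log 2 - (Q : ℝ) / (2 * Nat.totient Q) + u)}) ∧
        ∀ θ ∈ Set.Ioo (0 : ℝ) 1, Oscillates {x : ℕ | G (A ω) (θ * x) = G (A ω) x} := by
  refine ⟨fun Q => isModel (level Q) (level_nonneg Q) (level_le_one Q), ?_⟩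
  intro Ω _ μ _ A Q hQ hA
  filter_upwards [main hA hQ, main_k hA hQ, poisson_all hA hQ, inf_R hA hQ] with ω hω hk hp hinf
  refine ⟨fun θ hθ => ⟨?_, fun u => ?_⟩, fun k θ u c h0 h1 h2 => ?_, fun u => ?_, fun θ hθ => ?_⟩
  · rw [hasLogDensity_iff]
    refine lm_squeeze fun ε hε => ?_
    have h1 : Tendsto (fun u : ℝ => Real.exp (-Real.exp (-u))) atTop (𝓝 (Real.exp (-0))) :=
      (Real.continuous_exp.tendsto _).comp (Real.tendsto_exp_neg_atTop_nhds_zero.neg)
    rw [neg_zero, Real.exp_zero] at h1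
    obtain ⟨u, hu⟩ := (h1.eventually (eventually_gt_nhds (show 1 - ε < 1 by linarith))).exists
    have hF : Real.exp (-Real.exp (-u)) ≤ 1 := by
      rw [Real.exp_le_one_iff]
      linarith [Real.exp_pos (-u)]
    have hF0 := Real.exp_pos (-Real.exp (-u))
    have hθ2 : θ ^ 2 ≤ 1 := by nlinarith [hθ.1, hθ.2]
    have hθ0 : 0 ≤ θ ^ 2 := sq_nonneg θ
    have h2 := hω θ u hθ.1 hθ.2
    have h3 := hω 1 u zero_le_one le_rfl
    refine ⟨fun n => ind (G (A ω) (θ * n) = G (A ω) n ∧ G (A ω) n ≤ TT Q u n),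
      fun n => ind (G (A ω) (θ * n) = G (A ω) n ∧ G (A ω) n ≤ TT Q u n) +
        (1 - ind (G (A ω) (1 * n) = G (A ω) n ∧ G (A ω) n ≤ TT Q u n)), _, _, ?_, ?_, h2,
      (h2.add (((lm_const 1).sub h3).congr fun N => (lm_sub _ _ N).symm)).congr fun N => (lm_add _ _ N).symm, ?_, ?_⟩
    · exact Eventually.of_forall fun n => ind_mono fun h => h.1
    · refine Eventually.of_forall fun n => ?_
      show ind (G (A ω) (θ * n) = G (A ω) n) ≤ ind (G (A ω) (θ * n) = G (A ω) n ∧ G (A ω) n ≤ TT Q u n) +
        (1 - ind (G (A ω) (1 * n) = G (A ω) n ∧ G (A ω) n ≤ TT Q u n))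
      by_cases h4 : G (A ω) n ≤ TT Q u n
      · have h5 : ind (G (A ω) (θ * n) = G (A ω) n) ≤ ind (G (A ω) (θ * n) = G (A ω) n ∧ G (A ω) n ≤ TT Q u n) :=
          ind_mono fun h => ⟨h, h4⟩
        have h6 := ind_le_one (G (A ω) (1 * n) = G (A ω) n ∧ G (A ω) n ≤ TT Q u n)
        linarith
      · have h5 : ind (G (A ω) (1 * n) = G (A ω) n ∧ G (A ω) n ≤ TT Q u n) = 0 := ind_false fun h => h4 h.2
        have h6 := ind_nonneg (G (A ω) (θ * n) = G (A ω) n ∧ G (A ω) n ≤ TT Q u n)
        have h7 := ind_le_one (G (A ω) (θ * n) = G (A ω) n)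
        rw [h5]
        linarith
    · nlinarith
    · nlinarith
  · refine logDensity_congr ?_ (hω θ u hθ.1 hθ.2)
    filter_upwards [thr_eq Q u] with n hn
    rw [hn]
  · refine logDensity_congr ?_ (hp k θ u c h0 h1 h2)
    have h4 : ∀ᶠ n : ℕ in atTop, ∀ i ∈ range k, 0 ≤ Real.log n *
        (Real.log n - Real.log (Real.log n) - Real.log 2 - (Q : ℝ) / (2 * Nat.totient Q) + u i) ∧ ⌊Real.log n *
        (Real.log n - Real.log (Real.log n) - Real.log 2 - (Q : ℝ) / (2 * Nat.totient Q) + u i)⌋₊ = TT Q (u i) n := by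
      rw [Filter.eventually_all_finset]
      exact fun i _ => thr Q (u i)
    filter_upwards [h4] with n hn
    refine forall₂_congr fun i hi => ?_
    obtain ⟨h5, h6⟩ := hn i (mem_range.2 hi)
    rw [NG_eq hinf.1 (h0 i) (h0 (i + 1)) h5 n, h6]
    rfl
  · have h5 : ∀ θ u : ℝ, 0 ≤ θ → θ ≤ 1 →
        Tendsto (lm fun n => ind (G (A ω) (θ * n) ≤ TT Q u n)) atTop (𝓝 (Real.exp (-(θ ^ 2 * Real.exp (-u))))) := by
      intro θ u hθ0 hθ1
      have h6 := hk 1 (fun i => if i = 0 then 0 else θ) (fun _ => u) (by simp) (fun i => by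
        show (if i = 0 then (0 : ℝ) else θ) ≤ 1
        split_ifs
        · exact zero_le_one
        · exact hθ1) (fun i j hij => by
        show (if i = 0 then (0 : ℝ) else θ) ≤ if j = 0 then (0 : ℝ) else θ
        split_ifs with e1 e2
        · exact le_rfl
        · exact hθ0
        · omega
        · exact le_rfl) (fun _ _ _ => le_rfl)
      have e1 : sig 1 (fun i => if i = 0 then 0 else θ) (fun _ => u) = θ ^ 2 * Real.exp (-u) := by
        unfold sig
        simp
      rw [e1] at h6
      refine h6.congr fun N => ?_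
      congr 1
      funext n
      congr 1
      apply propext
      constructor
      · intro h
        have := h 0 (by norm_num)
        simpa using this
      · intro h i hi
        have : i = 0 := by omega
        subst this
        simpa using h
    have h6 : ∀ u : ℝ, Tendsto (lm fun n => ind (G (A ω) (n : ℝ) ≤ TT Q u n)) atTop (𝓝 (Real.exp (-Real.exp (-u)))) := by
      intro u
      have h7 := h5 1 u zero_le_one le_rfl
      rw [one_pow, one_mul] at h7
      refine h7.congr fun N => ?_
      congr 1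
      funext n
      rw [one_mul]
    refine oscillates_congr ?_ (oscillates (size_lower h5 u) (size_upper h6 u))
    filter_upwards [thr_eq Q u] with n hn
    exact (hn _).symm
  · exact oscillates (pos_lower hk hθ.1 hθ.2) (pos_upper hω hθ.1 hθ.2.le)

end Pool.Agent.Results.MP_3bc45c_nt.LargestGapAtTypicalScales
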